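import Pool.Agent.V11291.JH.Fam

/-!
# Infinite chains of families
-/

set_option autoImplicit false

open Finset Filter

namespace Pool.Agent.V11291.JH

open Pool.Agent.Y687.MQ (AdmD matD)
open Pool.Agent.Y703.CQ (c2)
open Pool.Agent.Y682.YQ (H9)
open Pool.Agent.Y682.YQ.CA (count)

theorem exists_next {s : ℤ} (hs : s = 1 ∨ s = -1) {S : Finset ℤ} (hS : Fm S) :
    ∃ D : ℤ, 0 < s * D ∧ D ∉ S ∧ Fm (insert D S) := by
  have h := prop_fam hs hS
  have hc : 0 < c2 ^ (2 ^ S.card) := pow_pos Pool.Agent.Y948.CQ.t_C2.2.1 _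
  obtain ⟨X, hX⟩ := (h.eventually (lt_mem_nhds hc)).exists
  have h1 : count (fun D => AdmD D ∧ 0 < s * D ∧ (H9 D ∧ (D ∉ S ∧ Fm (insert D S)))) X ≠ 0 := by
    intro h0
    rw [h0] at hX
    simp at hX
  unfold count at h1
  obtain ⟨⟨D, -, -, h2, -, h3, h4⟩⟩ := (Nat.card_ne_zero.1 h1).1
  exact ⟨D, h2, h3, h4⟩

theorem chain {S : Finset ℤ} (hS : Fm S) (σ : ℕ → ℤ) (hσ : ∀ i, σ i = 1 ∨ σ i = -1) :
    ∃ d : ℕ → ℤ, (∀ i, 0 < σ i * d i) ∧ Function.Injective d ∧ (∀ i, d i ∉ S) ∧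
      ∀ n, Fm (S ∪ (range n).image d) := by
  classical
  have hstep : ∀ (n : ℕ) (U : {U : Finset ℤ // Fm U}), ∃ D : ℤ, 0 < σ n * D ∧ D ∉ U.1 ∧
      Fm (insert D U.1) := fun n U => exists_next (hσ n) U.2
  choose pick hp1 hp2 hp3 using hstep
  let F : ℕ → {U : Finset ℤ // Fm U} := fun n => Nat.rec ⟨S, hS⟩
    (fun n U => ⟨insert (pick n U) U.1, hp3 n U⟩) n
  have hF0 : (F 0).1 = S := rfl
  have hF1 : ∀ n, (F (n + 1)).1 = insert (pick n (F n)) (F n).1 := fun n => rfl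
  have hU : ∀ n, (F n).1 = S ∪ (range n).image fun n => pick n (F n) := by
    intro n
    induction n with
    | zero => rw [hF0, range_zero, image_empty, union_empty]
    | succ n ih =>
      rw [hF1, range_add_one, image_insert, union_insert, ← ih]
  have hlt : ∀ m n, m < n → pick m (F m) ≠ pick n (F n) := by
    intro m n hmn h
    apply hp2 n (F n)
    rw [← h, hU n]
    exact mem_union_right _ (mem_image.2 ⟨m, mem_range.2 hmn, rfl⟩)
  refine ⟨fun n => pick n (F n), fun i => hp1 i (F i), ?_, fun i hi => ?_, fun n => ?_⟩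
  · intro m n h
    by_contra hne
    rcases lt_or_gt_of_ne hne with h1 | h1
    · exact hlt m n h1 h
    · exact hlt n m h1 h.symm
  · apply hp2 i (F i)
    rw [hU i]
    exact mem_union_left _ hi
  · rw [← hU n]
    exact (F n).2

end Pool.Agent.V11291.JH
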