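import Pool.Agent.Y682.YS.Main
import Pool.Agent.Y682.YS.Fin
import Pool.Agent.Y697.MQ.Kum

/-!
# The degree of the fields
-/

set_option autoImplicit false

open Finset NumberField

namespace Pool.Agent.V11291.JH

theorem finrank_mq {n : ℕ} (d : Fin n → ℤ) (hd0 : ∀ i, d i ≠ 0)
    (hind : ∀ T : Finset (Fin n), T.Nonempty → ¬ IsSquare (∏ i ∈ T, d i))
    (F₀ : IntermediateField ℚ ℂ) [NumberField F₀]
    (hF₀ : F₀ = IntermediateField.adjoin ℚ {z : ℂ | ∃ i, z ^ 2 = (d i : ℂ)}) :
    Module.finrank ℚ F₀ = 2 ^ n := by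
  classical
  obtain ⟨x, hx, hgen⟩ := Pool.Agent.Y682.YS.gens d F₀ hF₀
  have hgal : IsGalois ℚ F₀ := Pool.Agent.Y682.YS.galois d x hx (by
    intro S hS1 hS2
    have h1 : IntermediateField.adjoin ℚ (Set.range x) ≤
        ({ S with algebraMap_mem' := hS1 } : IntermediateField ℚ F₀) := by
      rw [IntermediateField.adjoin_le_iff]
      rintro _ ⟨i, rfl⟩
      exact hS2 i
    rw [hgen] at h1
    rw [eq_top_iff]
    intro y _
    exact h1 (IntermediateField.mem_top (x := y)))
  have h := Pool.Agent.Y697.MQ.kummer_card (k := ℚ) (K := F₀) x (fun i => (d i : ℚ))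
    (fun i => by exact_mod_cast hd0 i) (fun i => by rw [hx i]; simp) two_ne_zero
    (fun J hJ hsq => by
      apply hind J hJ
      have h3 : (∏ i ∈ J, (d i : ℚ)) = ((∏ i ∈ J, d i : ℤ) : ℚ) := by push_cast; rfl
      rw [h3] at hsq
      exact Rat.isSquare_intCast_iff.1 hsq)
    (fun σ hσ => by
      have h1 : IntermediateField.adjoin ℚ (Set.range x) ≤
          IntermediateField.fixedField (Subgroup.zpowers σ) := by
        rw [IntermediateField.adjoin_le_iff]
        rintro _ ⟨i, rfl⟩
        rw [SetLike.mem_coe, IntermediateField.mem_fixedField_iff]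
        intro τ hτ
        obtain ⟨k, rfl⟩ := Subgroup.mem_zpowers_iff.1 hτ
        have hst : ∀ k : ℕ, (σ ^ k) (x i) = x i := by
          intro k
          induction k with
          | zero => simp
          | succ k ih => rw [pow_succ, AlgEquiv.mul_apply, hσ i, ih]
        rcases Int.eq_nat_or_neg k with ⟨m, rfl | rfl⟩
        · rw [zpow_natCast]
          exact hst m
        · rw [zpow_neg, zpow_natCast]
          have h2 : (σ ^ m)⁻¹ (x i) = (σ ^ m)⁻¹ ((σ ^ m) (x i)) := by rw [hst m]
          rw [h2]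
          exact AlgEquiv.symm_apply_apply _ _
      rw [hgen] at h1
      ext y
      have h2 := h1 (IntermediateField.mem_top (x := y))
      rw [IntermediateField.mem_fixedField_iff] at h2
      have h3 := h2 σ (Subgroup.mem_zpowers σ)
      rw [h3]
      rfl)
  rw [← IsGalois.card_aut_eq_finrank, h, Fintype.card_fin]

theorem finrank_sup {n : ℕ} (d : Fin n → ℤ) (hd0 : ∀ i, d i ≠ 0)
    (hind : ∀ T : Finset (Fin n), T.Nonempty → ¬ IsSquare (∏ i ∈ T, d i))
    (F₀ K F : IntermediateField ℚ ℂ) [NumberField F₀] [NumberField K]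
    (hodd : Odd (Module.finrank ℚ K))
    (hF₀ : F₀ = IntermediateField.adjoin ℚ {z : ℂ | ∃ i, z ^ 2 = (d i : ℂ)}) (hF : F = F₀ ⊔ K) :
    Module.finrank ℚ F = 2 ^ n * Module.finrank ℚ K := by
  have h1 := finrank_mq d hd0 hind F₀ hF₀
  have h2 : F₀.LinearDisjoint K := by
    apply IntermediateField.LinearDisjoint.of_finrank_coprime
    rw [h1]
    exact Nat.Coprime.pow_left _ (Nat.coprime_two_left.2 hodd)
  rw [hF, h2.finrank_sup, h1]

end Pool.Agent.V11291.JH
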