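import Pool.Agent.V11291.JH.Prp

/-!
# The criteria for different twists are independent events
-/

set_option autoImplicit false
set_option linter.style.haveILetI false

open Finset Filter

namespace Pool.Agent.V11291.JH

open Pool.Agent.Y687.MQ (AdmD matD)
open Pool.Agent.Y703.CQ (c2)
open Pool.Agent.Y682.YQ (H9)
open Pool.Agent.Y682.YQ.CA (count)

/-- the criterion for the twist by `b` -/
def Tw (b D : ℤ) : Prop :=
  ∀ (D' k : ℤ), AdmD D' → D * b = D' * k ^ 2 → (matD D').det ≠ 0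

lemma count_congr {Q Q' : ℤ → Prop} (h : ∀ D, Q D ↔ Q' D) (X : ℕ) : count Q X = count Q' X := by
  unfold count
  exact Nat.card_congr (Equiv.subtypeEquivRight fun D => by rw [h])

lemma count_split (Q A : ℤ → Prop) (X : ℕ) :
    count Q X = count (fun D => Q D ∧ A D) X + count (fun D => Q D ∧ ¬ A D) X := by
  classical
  unfold count
  have hf : ∀ P : ℤ → Prop, Set.Finite {D : ℤ | |D| ≤ (X : ℤ) ∧ P D} := by
    intro P
    refine (Set.finite_Icc (-(X : ℤ)) X).subset ?_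
    rintro D ⟨h, -⟩
    exact abs_le.1 h
  have hc : ∀ P : ℤ → Prop, Nat.card {D : ℤ // |D| ≤ (X : ℤ) ∧ P D} =
      {D : ℤ | |D| ≤ (X : ℤ) ∧ P D}.ncard := fun P => rfl
  rw [hc, hc, hc, ← Set.ncard_union_eq _ (hf _) (hf _)]
  · congr 1
    ext D
    simp only [Set.mem_setOf_eq, Set.mem_union]
    tauto
  · rw [Set.disjoint_left]
    rintro D ⟨-, -, h1⟩ ⟨-, -, h2⟩
    exact h2 h1

/-- some of the events, in terms of subsets -/
theorem some9 {s : ℤ} (hs : s = 1 ∨ s = -1) {M : ℕ} (B : Fin M → ℤ) (hB : ∀ i, AdmD (B i))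
    (hB9 : ∀ i, H9 (B i)) (hinj : Function.Injective B) (U : Finset (Fin M)) :
    Tendsto (fun X : ℕ => (count (fun D => AdmD D ∧ 0 < s * D ∧ (H9 D ∧ ∀ i ∈ U, Tw (B i) D)) X : ℝ) /
      (count (fun D => AdmD D ∧ 0 < s * D ∧ H9 D) X : ℝ)) atTop (nhds (c2 ^ U.card)) := by
  refine joint9 hs (B ∘ (U.orderEmbOfFin rfl)) (fun i => hB _) (fun i => hB9 _)
    (hinj.comp (U.orderEmbOfFin rfl).injective) (fun D => ∀ i ∈ U, Tw (B i) D) fun D _ _ => ?_
  constructor
  · intro h i D' k h1 h2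
    exact h _ (U.orderEmbOfFin_mem rfl i) D' k h1 h2
  · intro h i hi
    have h1 : i ∈ Set.range (U.orderEmbOfFin rfl) := by
      rw [Finset.range_orderEmbOfFin]
      exact hi
    obtain ⟨j, rfl⟩ := h1
    exact fun D' k h2 h3 => h j D' k h2 h3

/-- **the events are independent** -/
theorem indep9 {s : ℤ} (hs : s = 1 ∨ s = -1) {M : ℕ} (B : Fin M → ℤ) (hB : ∀ i, AdmD (B i))
    (hB9 : ∀ i, H9 (B i)) (hinj : Function.Injective B) (V : Finset (Fin M)) :
    ∀ U : Finset (Fin M), Disjoint U V →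
    Tendsto (fun X : ℕ => (count (fun D => AdmD D ∧ 0 < s * D ∧
      (H9 D ∧ (∀ i ∈ U, Tw (B i) D) ∧ ∀ i ∈ V, ¬ Tw (B i) D)) X : ℝ) /
      (count (fun D => AdmD D ∧ 0 < s * D ∧ H9 D) X : ℝ)) atTop
      (nhds (c2 ^ U.card * (1 - c2) ^ V.card)) := by
  classical
  induction V using Finset.induction_on with
  | empty =>
    intro U _
    rw [card_empty, pow_zero, mul_one]
    refine (some9 hs B hB hB9 hinj U).congr fun X => ?_
    rw [count_congr (Q' := fun D => AdmD D ∧ 0 < s * D ∧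
      (H9 D ∧ (∀ i ∈ U, Tw (B i) D) ∧ ∀ i ∈ (∅ : Finset (Fin M)), ¬ Tw (B i) D)) (fun D => by simp)]
  | insert j V hj ih =>
    intro U hU
    rw [disjoint_insert_right] at hU
    have h1 := ih U hU.2
    have h2 := ih (insert j U) (by
      rw [disjoint_insert_left]
      exact ⟨hj, hU.2⟩)
    have h3 := h1.sub h2
    have e : c2 ^ U.card * (1 - c2) ^ V.card - c2 ^ (insert j U).card * (1 - c2) ^ V.card =
        c2 ^ U.card * (1 - c2) ^ (insert j V).card := by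
      rw [card_insert_of_notMem hU.1, card_insert_of_notMem hj, pow_succ, pow_succ]
      ring
    rw [e] at h3
    refine h3.congr fun X => ?_
    rw [← sub_div]
    congr 1
    have h4 := count_split (fun D => AdmD D ∧ 0 < s * D ∧
      (H9 D ∧ (∀ i ∈ U, Tw (B i) D) ∧ ∀ i ∈ V, ¬ Tw (B i) D)) (fun D => Tw (B j) D) X
    have h5 : count (fun D => (AdmD D ∧ 0 < s * D ∧
      (H9 D ∧ (∀ i ∈ U, Tw (B i) D) ∧ ∀ i ∈ V, ¬ Tw (B i) D)) ∧ Tw (B j) D) X =
      count (fun D => AdmD D ∧ 0 < s * D ∧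
      (H9 D ∧ (∀ i ∈ insert j U, Tw (B i) D) ∧ ∀ i ∈ V, ¬ Tw (B i) D)) X :=
      count_congr (fun D => by rw [forall_mem_insert]; tauto) X
    have h6 : count (fun D => (AdmD D ∧ 0 < s * D ∧
      (H9 D ∧ (∀ i ∈ U, Tw (B i) D) ∧ ∀ i ∈ V, ¬ Tw (B i) D)) ∧ ¬ Tw (B j) D) X =
      count (fun D => AdmD D ∧ 0 < s * D ∧
      (H9 D ∧ (∀ i ∈ U, Tw (B i) D) ∧ ∀ i ∈ insert j V, ¬ Tw (B i) D)) X :=
      count_congr (fun D => by rw [forall_mem_insert]; tauto) X
    rw [h5, h6] at h4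
    rw [h4]
    push_cast
    ring

end Pool.Agent.V11291.JH
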