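import Pool.Agent.V11291.JF.Stm
import Pool.Agent.Y682.YQ.Stm

/-!
# The joint proportion for the primes inert in the cyclotomic `ℤ₃`-extension: the statements
-/

set_option autoImplicit false
set_option linter.unusedVariables false

open scoped Classical

namespace Pool.Agent.V11291.JH

open Finset
open Pool.Agent.Y703.CX (sm la jj XX eL zz kk S_SIE)
open Pool.Agent.Y703.CQ (Ok nr sg cu Sol Gd c2 S_BIL prs HB S_EQ ext GdA S_SYM S_C2 S_LA Nd S_BOX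
  HD S_HAL)
open Pool.Agent.Y682.YQ
open Pool.Agent.V11291.JF (GdF OkV df NdF S_FBOX)

/-- many primes of the class separate the indices -/
def Sep {M : ℕ} (f : Fin M → ℕ → ZMod 2) (V : Fin M → Finset ℕ) : Prop :=
  ∀ i j, i ≠ j → ∃ δ C : ℝ, 0 < δ ∧ ∀ y : ℕ, 3 ≤ y →
    δ * Real.log (Real.log y) - C ≤
    ∑ p ∈ (range (y + 1)).filter (fun p => Sp p ∧ df f V i j p ≠ 0), (1 : ℝ) / p

/-- the sum over the boxes. -/
def S_FKEY : Prop := S_BIL → S_EQ → S_FBOX → ∀ (M : ℕ) (ε : ℝ), 0 < ε →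
  ∃ (R : ℕ) (C : ℝ), 1 ≤ C ∧
  ∀ (I K : Finset ℕ) (f : Fin M → ℕ → ZMod 2) (X z H k V N : ℕ) (κ : ℝ) (W : Finset ℕ)
  (U : Fin M → Finset ℕ), OkV W U → (∀ u ∈ W, u ≤ z) → W.card ≤ k → M ≤ k →
  Ok I K → 1 ≤ X → 1 ≤ H → 1 ≤ z → 0 ≤ κ → C ≤ κ ^ 12 * z → (H : ℝ) * Real.log X < N →
  |(((RR I K X z H k V).filter fun S => NdF R W f U (sm z S) (la z S) ∧ GdF f U S).card : ℝ) -
      c2 ^ M * (((RR I K X z H k V).filter fun S => NdF R W f U (sm z S) (la z S)).card : ℝ)| ≤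
    ε * ((RR I K X z H k V).card : ℝ) +
    (9 * N + 9 : ℝ) ^ k * (3 ^ (7 * k ^ 2) * κ) * (X * (1 + Real.log X))

/-- few sets have degenerate labels. -/
def S_JBAD : Prop := S_SIE → S_HAL → S_MER → ∀ (I K W : Finset ℕ), Ok I K →
  (∀ u ∈ W, u.Prime ∧ u ≠ 2 ∧ u ≠ 7) → ∃ (δ C : ℝ) (X₀ : ℕ), 0 < δ ∧ ∀ X : ℕ, X₀ ≤ X →
  (((SS I K X).filter fun S => S.card ≤ kk X ∧
      ¬ Nd (sm (zz X) S ∪ W) (la (zz X) S)).card : ℝ) ≤
    C * X * (Real.log X) ^ (-1 + dl I - δ : ℝ)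

/-- few sets have few large split primes of a set of primes of positive density. -/
def S_FFEW : Prop := S_SIE → S_MER → ∀ (I K : Finset ℕ) (b : ℕ → ZMod 2) (δ₀ C₀ : ℝ) (R : ℕ),
  Ok I K → 0 < δ₀ →
  (∀ y : ℕ, 3 ≤ y → δ₀ * Real.log (Real.log y) - C₀ ≤
    ∑ p ∈ (range (y + 1)).filter (fun p => Sp p ∧ b p ≠ 0), (1 : ℝ) / p) →
  ∃ (δ C : ℝ) (X₀ : ℕ), 0 < δ ∧ ∀ X : ℕ, X₀ ≤ X →
  (((SS I K X).filter fun S => ((la (zz X) S).filter fun p => p % 8 = 1 ∧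
      b p ≠ 0).card < 2 * (sm (zz X) S).card + R).card : ℝ) ≤
    C * X * (Real.log X) ^ (-1 + dl I - δ : ℝ)

/-- FINAL: the proportion of the jointly good sets -/
def S_FDQ : Prop := ∀ (I K : Finset ℕ) (M : ℕ) (f : Fin M → ℕ → ZMod 2) (W : Finset ℕ)
  (V : Fin M → Finset ℕ), Ok I K → OkV W V → Sep f V → Filter.Tendsto
    (fun X : ℕ => (((SS I K X).filter (GdF f V)).card : ℝ) / ((SS I K X).card : ℝ))
    Filter.atTop (nhds (c2 ^ M))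

/-- FINAL, in terms of the numbers `D`. -/
def S_FDEN : Prop := ∀ (I K : Finset ℕ) (M : ℕ) (f : Fin M → ℕ → ZMod 2) (W : Finset ℕ)
  (V : Fin M → Finset ℕ), Ok I K → OkV W V → Sep f V → Filter.Tendsto
  (fun X : ℕ => (((Icc 1 X).filter fun D => Squarefree D ∧ Cl I K D.primeFactors ∧
      GdF f V D.primeFactors).card : ℝ) /
    (((Icc 1 X).filter fun D => Squarefree D ∧ Cl I K D.primeFactors).card : ℝ))
  Filter.atTop (nhds (c2 ^ M))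

end Pool.Agent.V11291.JH
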