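import Pool.Agent.Y682.YQ.Few
import Pool.Agent.V11291.JH.Stm

/-!
# Few sets have few large split primes of a set of primes of positive density

Adapted from `Pool.Agent.Y362.JQ.FEW` (helper362).
-/

set_option autoImplicit false

open scoped Classical

namespace Pool.Agent.V11291.JH.Fe

open Finset Filter
open Pool.Agent.Y703.CX (sm la eL zz S_SIE)
open Pool.Agent.Y703.CQ (Ok nr sg cu Sol Gd c2 S_BIL prs HB S_EQ ext GdA S_SYM S_C2 S_LA Nd S_BOX HD S_HAL)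
open Pool.Agent.Y682.YQ
open Pool.Agent.Y495.CX.Few (PN euler prod_pos' le_of_mem_prod mert eL_tendsto log_small zz_ge
  loglog_zz rpow_eq)
open Pool.Agent.Y682.YQ.Few (pr LL mem_LL LL_sub mem_LL_of mer_S mer_I moment SS_mem)

/-- sets with many small primes -/
lemma part1g (I K : Finset ℕ) {τ : ℝ} (hτ : 0 < τ) : ∃ C : ℝ, 0 ≤ C ∧ ∀ᶠ X : ℕ in atTop,
    (((SS I K X).filter fun S => τ * eL X < ((sm (zz X) S).card : ℝ)).card : ℝ) ≤
      C * X * Real.exp (-(19 / 20) * eL X) := by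
  obtain ⟨C, hC0, hC⟩ := mert
  set κ : ℝ := Real.exp (1 / τ) with hκ
  have κ0 : 0 < κ := Real.exp_pos _
  refine ⟨Real.exp (κ * C), (Real.exp_pos _).le, ?_⟩
  filter_upwards [eL_tendsto.eventually (log_small (3 * κ) (1 / 20) (by norm_num)),
    eL_tendsto.eventually (eventually_ge_atTop 2)] with X h1 h2
  have h3 := moment X (zz X) (SS I K X)
    (fun S hS => ⟨fun p hp => pr ((SS_mem hS).1 p hp), (SS_mem hS).2⟩) κ κ0.le
  have h4 := hC (zz X) (zz_ge h2)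
  have h5 := loglog_zz h2
  have h6 : (((SS I K X).filter fun S => τ * eL X < ((sm (zz X) S).card : ℝ)).card : ℝ) *
      Real.exp (eL X) ≤ ∑ S ∈ SS I K X, κ ^ (sm (zz X) S).card := by
    rw [← nsmul_eq_mul, ← sum_const]
    refine le_trans ?_ (sum_le_sum_of_subset_of_nonneg
      (filter_subset (fun S => τ * eL X < ((sm (zz X) S).card : ℝ)) (SS I K X))
      fun S _ _ => by positivity)
    refine sum_le_sum fun S hS => ?_
    rw [mem_filter] at hS
    rw [hκ, ← Real.exp_nat_mul]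
    apply Real.exp_le_exp.2
    have h7 : τ * eL X * (1 / τ) ≤ ((sm (zz X) S).card : ℝ) * (1 / τ) :=
      mul_le_mul_of_nonneg_right hS.2.le (by positivity)
    have h8 : τ * eL X * (1 / τ) = eL X := by
      field_simp
    linarith
  have h7 := h6.trans h3
  have h8 : κ * ∑ p ∈ PN (zz X), (1 : ℝ) / p ≤ κ * C + 1 / 20 * eL X := by
    have : κ * ∑ p ∈ PN (zz X), (1 : ℝ) / p ≤ κ * (3 * Real.log (eL X) + C) :=
      mul_le_mul_of_nonneg_left (by linarith) κ0.le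
    nlinarith
  have h9 : (X : ℝ) * Real.exp (κ * ∑ p ∈ PN (zz X), (1 : ℝ) / p) ≤
      X * (Real.exp (κ * C) * Real.exp (1 / 20 * eL X)) := by
    rw [← Real.exp_add]
    exact mul_le_mul_of_nonneg_left (Real.exp_le_exp.2 h8) (Nat.cast_nonneg _)
  have h10 := h7.trans h9
  have h11 : (Real.exp (κ * C) * X * Real.exp (-(19 / 20) * eL X)) * Real.exp (eL X) =
      X * (Real.exp (κ * C) * Real.exp (1 / 20 * eL X)) := by
    have : Real.exp (1 / 20 * eL X) = Real.exp (-(19 / 20) * eL X) * Real.exp (eL X) := by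
      rw [← Real.exp_add]
      congr 1
      ring
    rw [this]
    ring
  rw [← h11] at h10
  exact le_of_mul_le_mul_right h10 (Real.exp_pos _)

/-- the split primes of the set -/
def BB (b : ℕ → ZMod 2) (p : ℕ) : Prop := Sp p ∧ b p ≠ 0

/-- the lower bound for the reciprocals -/
lemma mer_B {b : ℕ → ZMod 2} {δ₀ C₀ : ℝ}
    (hm : ∀ y : ℕ, 3 ≤ y → δ₀ * Real.log (Real.log y) - C₀ ≤
      ∑ p ∈ (range (y + 1)).filter (fun p => Sp p ∧ b p ≠ 0), (1 : ℝ) / p) :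
    ∀ y : ℕ, 3 ≤ y →
    δ₀ * Real.log (Real.log y) - |C₀| ≤ ∑ p ∈ (PN y).filter (BB b), (1 : ℝ) / p := by
  intro y hy
  have h1 := hm y hy
  have h2 := le_abs_self C₀
  have h3 : (range (y + 1)).filter (fun p => Sp p ∧ b p ≠ 0) = (PN y).filter (BB b) := by
    ext p
    rw [mem_filter, mem_filter, mem_filter, mem_Icc, mem_range]
    constructor
    · rintro ⟨a, c⟩
      exact ⟨⟨⟨c.1.1.one_lt.le, by omega⟩, c.1.1⟩, c⟩
    · rintro ⟨a, c⟩
      exact ⟨by have := a.1.2; omega, c⟩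
  rw [h3] at h1
  linarith

/-- the logarithmic density of a family -/
lemma LLB_sum (I : Finset ℕ) (b : ℕ → ZMod 2) (X z : ℕ) (Q : Finset ℕ → Prop) (w : ℕ → ℝ) (M : ℝ)
    (hw : ∀ p, 0 ≤ w p) (hM : 0 ≤ M) (h1w : ∀ S ∈ LL I X Q, 1 ≤ M * ∏ p ∈ S, w p)
    (hw1 : ∀ p, w p ≤ 1) (hB : ∀ p, BB b p → z < p → w p ≤ 1 / 4) :
    ∑ S ∈ LL I X Q, (1 : ℝ) / ((∏ p ∈ S, p : ℕ) : ℝ) ≤ M *
      Real.exp (∑ p ∈ PN z, (1 : ℝ) / p + ∑ p ∈ (PN X).filter Sp, (1 : ℝ) / p +
        ∑ p ∈ (PN X).filter (In I), (1 : ℝ) / p -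
        3 / 4 * ∑ p ∈ (PN X).filter (BB b), (1 : ℝ) / p) := by
  have h1 : ∀ S ∈ LL I X Q, (1 : ℝ) / ((∏ p ∈ S, p : ℕ) : ℝ) ≤
      M * ∏ p ∈ S, (w p * (1 / p)) := by
    intro S hS
    have h2 := h1w S hS
    have h3 : (0 : ℝ) ≤ ∏ p ∈ S, (1 : ℝ) / p := prod_nonneg fun p _ => by positivity
    have h4 : (1 : ℝ) / ((∏ p ∈ S, p : ℕ) : ℝ) = ∏ p ∈ S, (1 : ℝ) / p := by
      rw [prod_div_distrib, prod_const_one]
      push_cast
      rfl
    rw [h4, prod_mul_distrib]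
    calc ∏ p ∈ S, (1 : ℝ) / p = 1 * ∏ p ∈ S, (1 : ℝ) / p := (one_mul _).symm
      _ ≤ (M * ∏ p ∈ S, w p) * ∏ p ∈ S, (1 : ℝ) / p :=
          mul_le_mul_of_nonneg_right h2 h3
      _ = _ := by ring
  refine (sum_le_sum h1).trans ?_
  rw [← mul_sum]
  apply mul_le_mul_of_nonneg_left _ hM
  have hnn : ∀ p : ℕ, 0 ≤ w p * (1 / (p : ℝ)) := fun p => mul_nonneg (hw p) (by positivity)
  have h5 : ∑ S ∈ LL I X Q, ∏ p ∈ S, (w p * (1 / (p : ℝ))) ≤
      ∑ S ∈ ((PN X).filter fun p => Sp p ∨ In I p).powerset, ∏ p ∈ S, (w p * (1 / (p : ℝ))) := by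
    refine sum_le_sum_of_subset_of_nonneg ?_ fun S _ _ => prod_nonneg fun p _ => hnn p
    intro S hS
    rw [mem_LL] at hS
    rw [mem_powerset]
    intro p hp
    have h6 := pr (hS.2.1 p hp)
    rw [mem_filter, mem_filter, mem_Icc]
    exact ⟨⟨⟨h6.one_lt.le, le_of_mem_prod (fun p hp => pr (hS.2.1 p hp)) hS.2.2.1 hp⟩, h6⟩,
      hS.2.1 p hp⟩
  refine h5.trans ((euler _ _ fun p _ => hnn p).trans ?_)
  apply Real.exp_le_exp.2
  have hmono : ∀ p : ℕ, 0 ≤ (if p ≤ z then (1 : ℝ) / p else 0) +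
      (if Sp p then (1 : ℝ) / p else 0) + (if In I p then (1 : ℝ) / p else 0) -
        3 / 4 * (if BB b p then (1 : ℝ) / p else 0) := by
    intro p
    have hp0 : (0 : ℝ) ≤ 1 / p := by positivity
    have e0 : (0 : ℝ) ≤ if p ≤ z then (1 : ℝ) / p else 0 := by
      split_ifs
      · exact hp0
      · exact le_refl _
    have e2 : (0 : ℝ) ≤ if In I p then (1 : ℝ) / p else 0 := by
      split_ifs
      · exact hp0
      · exact le_refl _
    have e3 : 3 / 4 * (if BB b p then (1 : ℝ) / p else 0) ≤ if Sp p then (1 : ℝ) / p else 0 := by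
      by_cases hb : BB b p
      · rw [if_pos hb, if_pos hb.1]
        linarith
      · rw [if_neg hb, mul_zero]
        split_ifs
        · exact hp0
        · exact le_refl _
    linarith
  have h6 : ∀ p ∈ (PN X).filter fun p => Sp p ∨ In I p, w p * (1 / (p : ℝ)) ≤
      (if p ≤ z then (1 : ℝ) / p else 0) +
      (if Sp p then (1 : ℝ) / p else 0) + (if In I p then (1 : ℝ) / p else 0) -
        3 / 4 * (if BB b p then (1 : ℝ) / p else 0) := by
    intro p hp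
    have hp0 : (0 : ℝ) ≤ 1 / p := by positivity
    have e2 : (0 : ℝ) ≤ if In I p then (1 : ℝ) / p else 0 := by
      split_ifs
      · exact hp0
      · exact le_refl _
    have e0 : (0 : ℝ) ≤ if p ≤ z then (1 : ℝ) / p else 0 := by
      split_ifs
      · exact hp0
      · exact le_refl _
    have e1 : (0 : ℝ) ≤ if Sp p then (1 : ℝ) / p else 0 := by
      split_ifs
      · exact hp0
      · exact le_refl _
    have hw' : w p * (1 / (p : ℝ)) ≤ 1 / p := by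
      have := mul_le_mul_of_nonneg_right (hw1 p) hp0
      linarith
    by_cases hb : BB b p
    · rw [if_pos hb.1, if_pos hb]
      by_cases hpz : p ≤ z
      · rw [if_pos hpz]
        linarith
      · have := mul_le_mul_of_nonneg_right (hB p hb (not_le.1 hpz)) hp0
        linarith
    · rw [if_neg hb, mul_zero, sub_zero]
      rcases (mem_filter.1 hp).2 with h | h
      · rw [if_pos h]
        linarith
      · rw [if_pos h]
        linarith
  refine (sum_le_sum h6).trans ?_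
  refine (sum_le_sum_of_subset_of_nonneg (filter_subset _ _) fun p _ _ => hmono p).trans ?_
  rw [sum_sub_distrib, sum_add_distrib, sum_add_distrib, ← mul_sum, ← sum_filter, ← sum_filter,
    ← sum_filter, ← sum_filter]
  gcongr
  intro p hp
  rw [mem_filter, mem_filter, mem_Icc] at hp
  rw [mem_filter, mem_Icc]
  exact ⟨⟨hp.1.1.1, hp.2⟩, hp.1.2⟩

/-- the condition on the large primes -/
def QQ (b : ℕ → ZMod 2) (η : ℝ) (X : ℕ) (S : Finset ℕ) : Prop :=
  ((la (zz X) S).filter fun p => p % 8 = 1 ∧ b p ≠ 0).card ≤ ⌊η * eL X⌋₊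

lemma QQ_sub {b : ℕ → ZMod 2} {η : ℝ} {X : ℕ} : ∀ S, QQ b η X S → ∀ T, T ⊆ S → QQ b η X T := by
  intro S h T hT
  refine (card_le_card (filter_subset_filter _ ?_)).trans h
  unfold la
  exact filter_subset_filter _ hT

/-- sets with few large primes of the class -/
lemma part4 (hs : S_SIE) (hm : S_MER) {I K : Finset ℕ} {b : ℕ → ZMod 2} {δ₀ C₀ : ℝ}
    (hI : Ok I K) (hδ₀ : 0 < δ₀)
    (hb : ∀ y : ℕ, 3 ≤ y → δ₀ * Real.log (Real.log y) - C₀ ≤
      ∑ p ∈ (range (y + 1)).filter (fun p => Sp p ∧ b p ≠ 0), (1 : ℝ) / p) {r : ℝ}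
    (hr : -1 + (1 + (I.card : ℝ)) / 12 - δ₀ / 20 ≤ r) : ∃ C : ℝ, 0 ≤ C ∧ ∀ᶠ X : ℕ in atTop,
    ((LL I X (QQ b (δ₀ / 2) X)).card : ℝ) ≤ C * X * Real.exp (r * eL X) := by
  obtain ⟨C, hC0, hC⟩ := mert
  obtain ⟨C₁, hC₁0, hC₁⟩ := mer_S hm
  obtain ⟨C₂, hC₂0, hC₂⟩ := mer_I hm hI
  have hC₃ := mer_B hb
  obtain ⟨C', hC'1, hC'⟩ := hs
  have hl4 : Real.log 4 / 2 < 3 / 4 - 1 / 20 := by
    have h1 : (4 : ℝ) = 2 ^ 2 := by norm_num
    rw [h1, Real.log_pow]
    have := Real.log_two_lt_d9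
    push_cast
    linarith
  refine ⟨C' * Real.exp (C + C₁ + C₂ + |C₀|), by positivity, ?_⟩
  set η : ℝ := δ₀ * (3 / 4 - 1 / 20 - Real.log 4 / 2) with hη
  have hε : 0 < η := mul_pos hδ₀ (by linarith)
  filter_upwards [eL_tendsto.eventually (log_small 3 _ hε),
    eL_tendsto.eventually (eventually_ge_atTop 2), eventually_ge_atTop 3] with X h1 h2 h3
  set l := eL X with hl
  have h4 := hC (zz X) (zz_ge h2)
  have h5 := loglog_zz h2
  have h6 := hC₁ X h3
  have h6' := hC₂ X h3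
  have h6'' := hC₃ X h3
  rw [← hl] at h5
  change _ ≤ 1 / 12 * l + C₁ at h6
  change _ ≤ (I.card : ℝ) / 12 * l + C₂ at h6'
  change δ₀ * l - |C₀| ≤ _ at h6''
  have h7 := hC' X (LL I X (QQ b (δ₀ / 2) X)) (by omega)
    (fun S hS => ⟨fun p hp => pr ((mem_LL.1 hS).2.1 p hp), (mem_LL.1 hS).2.2.1⟩)
    (fun S hS T hT => LL_sub QQ_sub hS hT)
  have h1w : ∀ S ∈ LL I X (QQ b (δ₀ / 2) X), 1 ≤ Real.exp (Real.log 4 * (δ₀ / 2 * l)) *
      ∏ p ∈ S, (if ¬ p ≤ zz X ∧ (p % 8 = 1 ∧ b p ≠ 0) then (1 / 4 : ℝ) else 1) := by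
    intro S hS
    rw [mem_LL] at hS
    rw [← prod_filter, prod_const]
    have g1 : (S.filter fun p => ¬ p ≤ zz X ∧ (p % 8 = 1 ∧ b p ≠ 0)).card ≤
        ⌊δ₀ / 2 * l⌋₊ := by
      refine (card_le_card ?_).trans hS.2.2.2
      intro p hp
      rw [mem_filter] at hp
      unfold la
      rw [mem_filter, mem_filter]
      exact ⟨⟨hp.1, hp.2.1⟩, hp.2.2⟩
    have g2 : (1 / 4 : ℝ) ^ ⌊δ₀ / 2 * l⌋₊ ≤ (1 / 4 : ℝ) ^
        (S.filter fun p => ¬ p ≤ zz X ∧ (p % 8 = 1 ∧ b p ≠ 0)).card :=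
      pow_le_pow_of_le_one (by norm_num) (by norm_num) g1
    have g3 : Real.exp (-(Real.log 4 * (δ₀ / 2 * l))) ≤ (1 / 4 : ℝ) ^ ⌊δ₀ / 2 * l⌋₊ := by
      have e1 : (1 / 4 : ℝ) = Real.exp (-Real.log 4) := by
        rw [Real.exp_neg, Real.exp_log (by norm_num)]
        norm_num
      rw [e1, ← Real.exp_nat_mul]
      apply Real.exp_le_exp.2
      have e2 : ((⌊δ₀ / 2 * l⌋₊ : ℕ) : ℝ) ≤ δ₀ / 2 * l := Nat.floor_le (by positivity)
      have e4 : 0 ≤ Real.log 4 := Real.log_nonneg (by norm_num)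
      have e5 := mul_le_mul_of_nonneg_right e2 e4
      linarith
    calc (1 : ℝ) = Real.exp (Real.log 4 * (δ₀ / 2 * l)) *
          Real.exp (-(Real.log 4 * (δ₀ / 2 * l))) := by
          rw [← Real.exp_add, add_neg_cancel, Real.exp_zero]
      _ ≤ _ := mul_le_mul_of_nonneg_left (g3.trans g2) (Real.exp_pos _).le
  have h8 := LLB_sum I b X (zz X) (QQ b (δ₀ / 2) X)
    (fun p => if ¬ p ≤ zz X ∧ (p % 8 = 1 ∧ b p ≠ 0) then (1 / 4 : ℝ) else 1)
    (Real.exp (Real.log 4 * (δ₀ / 2 * l)))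
    (fun p => by split_ifs <;> norm_num) (Real.exp_pos _).le h1w
    (fun p => by split_ifs <;> norm_num)
    (fun p hb hz => by
      rw [if_pos ⟨not_le.2 hz, hb.1.2.1, hb.2⟩])
  have hlX : Real.log X = Real.exp l := by
    have := rpow_eq (X := X) h2 1
    rwa [Real.rpow_one, one_mul] at this
  rw [hlX] at h7
  have h12 : Real.exp (Real.log 4 * (δ₀ / 2 * l)) * Real.exp (∑ p ∈ PN (zz X), (1 : ℝ) / p +
      ∑ p ∈ (PN X).filter Sp, (1 : ℝ) / p + ∑ p ∈ (PN X).filter (In I), (1 : ℝ) / p -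
        3 / 4 * ∑ p ∈ (PN X).filter (BB b), (1 : ℝ) / p) ≤
      Real.exp (C + C₁ + C₂ + |C₀|) * Real.exp ((r + 1) * l) := by
    rw [← Real.exp_add, ← Real.exp_add]
    apply Real.exp_le_exp.2
    have e1 : ∑ p ∈ PN (zz X), (1 : ℝ) / p ≤ 3 * Real.log l + C := by linarith
    have e2 : (-1 + (1 + (I.card : ℝ)) / 12 - δ₀ / 20) * l ≤ r * l :=
      mul_le_mul_of_nonneg_right hr (by linarith)
    have e3 : η * l = 3 / 4 * (δ₀ * l) - δ₀ / 20 * l - Real.log 4 * (δ₀ / 2 * l) := by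
      rw [hη]; ring
    have e5 : 0 ≤ |C₀| := abs_nonneg _
    have e6 : 3 / 4 * (δ₀ * l) - 3 / 4 * |C₀| ≤
        3 / 4 * ∑ p ∈ (PN X).filter (BB b), (1 : ℝ) / p := by linarith
    nlinarith
  have h13 : ((LL I X (QQ b (δ₀ / 2) X)).card : ℝ) * Real.exp l ≤
      C' * X * (Real.exp (C + C₁ + C₂ + |C₀|) * Real.exp ((r + 1) * l)) := by
    refine h7.trans ?_
    exact mul_le_mul_of_nonneg_left (h8.trans h12) (by positivity)
  have h14 : (C' * Real.exp (C + C₁ + C₂ + |C₀|) * X * Real.exp (r * l)) * Real.exp l =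
      C' * X * (Real.exp (C + C₁ + C₂ + |C₀|) * Real.exp ((r + 1) * l)) := by
    have : Real.exp ((r + 1) * l) = Real.exp (r * l) * Real.exp l := by
      rw [← Real.exp_add]
      congr 1
      ring
    rw [this]
    ring
  rw [← h14] at h13
  exact le_of_mul_le_mul_right h13 (Real.exp_pos _)

theorem t_FFEW : S_FFEW := by
  intro hs hm I K b δ₁ C₀ R hI hδ₁ hb₁
  set δ₀ : ℝ := min δ₁ 1 with hδd
  have hδ₀ : 0 < δ₀ := lt_min hδ₁ one_pos
  have hδ1 : δ₀ ≤ 1 := min_le_right _ _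
  have hb : ∀ y : ℕ, 3 ≤ y → δ₀ * Real.log (Real.log y) - C₀ ≤
      ∑ p ∈ (range (y + 1)).filter (fun p => Sp p ∧ b p ≠ 0), (1 : ℝ) / p := by
    intro y hy
    refine le_trans ?_ (hb₁ y hy)
    have h1 : 0 ≤ Real.log (Real.log y) := by
      apply Real.log_nonneg
      have h2 : Real.exp 1 ≤ y := by
        have h3 := Real.exp_one_lt_d9
        have h4 : (3 : ℝ) ≤ y := by exact_mod_cast hy
        linarith
      rw [Real.le_log_iff_exp_le (by positivity)]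
      exact h2
    have h2 := mul_le_mul_of_nonneg_right (min_le_left δ₁ 1) h1
    linarith
  have hc1 : (1 : ℝ) ≤ I.card := by
    rcases hI.1 with rfl | rfl
    · norm_num
    · norm_num
  set r : ℝ := -1 + dl I - δ₀ / 20 with hr
  have hr' : r = -1 + (1 + (I.card : ℝ)) / 12 - δ₀ / 20 := by rw [hr, dl]
  obtain ⟨C₁, hC₁, h1⟩ := part1g I K (τ := δ₀ / 5) (by positivity)
  obtain ⟨C₃, hC₃, h3⟩ := part4 hs hm hI hδ₀ hb (r := r) (by linarith)
  have h4 := (h1.and h3).and (eL_tendsto.eventually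
    (eventually_ge_atTop (max 2 ((R : ℝ) * (10 / δ₀)))))
  rw [eventually_atTop] at h4
  obtain ⟨X₀, hX₀⟩ := h4
  refine ⟨δ₀ / 20, C₁ + C₃, X₀, by positivity, fun X hX => ?_⟩
  obtain ⟨⟨h5, h7⟩, h8⟩ := hX₀ X hX
  have h9 : 2 ≤ eL X := (le_max_left _ _).trans h8
  have h10 : (R : ℝ) ≤ δ₀ / 10 * eL X := by
    have h := (le_max_right _ _).trans h8
    have h' := mul_le_mul_of_nonneg_left h (by positivity : (0 : ℝ) ≤ δ₀ / 10)
    have e : δ₀ / 10 * ((R : ℝ) * (10 / δ₀)) = R := by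
      field_simp
    linarith
  rw [rpow_eq h9]
  have h11 : ((SS I K X).filter fun S => ((la (zz X) S).filter fun p => p % 8 = 1 ∧
      b p ≠ 0).card < 2 * (sm (zz X) S).card + R) ⊆
      ((SS I K X).filter fun S => δ₀ / 5 * eL X < ((sm (zz X) S).card : ℝ)) ∪
        LL I X (QQ b (δ₀ / 2) X) := by
    intro S hS
    rw [mem_filter] at hS
    rw [mem_union, mem_filter]
    by_cases hc : δ₀ / 5 * eL X < ((sm (zz X) S).card : ℝ)
    · exact Or.inl ⟨hS.1, hc⟩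
    · right
      rw [not_lt] at hc
      refine mem_LL_of hS.1 ?_
      apply Nat.le_floor
      have h12 : ((((la (zz X) S).filter fun p => p % 8 = 1 ∧
          b p ≠ 0).card : ℕ) : ℝ) ≤ 2 * ((sm (zz X) S).card : ℝ) + R := by
        exact_mod_cast hS.2.le
      linarith
  have h12 : (((SS I K X).filter fun S => ((la (zz X) S).filter fun p => p % 8 = 1 ∧
      b p ≠ 0).card < 2 * (sm (zz X) S).card + R).card : ℝ) ≤
      (((SS I K X).filter fun S => δ₀ / 5 * eL X < ((sm (zz X) S).card : ℝ)).card : ℝ) +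
      ((LL I X (QQ b (δ₀ / 2) X)).card : ℝ) := by
    exact_mod_cast (card_le_card h11).trans (card_union_le _ _)
  have h13 : C₁ * X * Real.exp (-(19 / 20) * eL X) ≤ C₁ * X * Real.exp (r * eL X) := by
    apply mul_le_mul_of_nonneg_left _ (by positivity)
    apply Real.exp_le_exp.2
    apply mul_le_mul_of_nonneg_right _ (by linarith)
    linarith
  refine h12.trans ((add_le_add (h5.trans h13) h7).trans (le_of_eq ?_))
  ring

end Pool.Agent.V11291.JH.Fe
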