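import Pool.Agent.Y682.YQ.Den
import Pool.Agent.V11291.JF.Asy
import Pool.Agent.V11291.JH.KEY
import Pool.Agent.V11291.JH.FEW
import Pool.Agent.V11291.JH.BAD

/-!
# The joint proportion for the primes inert in the cyclotomic `ℤ₃`-extension: the final asymptotics

Adapted from `Pool.Agent.Y687.JQ.Asy` (helper687, helper703).
-/

set_option autoImplicit false

open scoped Classical
open Finset Filter

namespace Pool.Agent.V11291.JH

open Pool.Agent.Y703.CX (sm la jj XX eL zz kk S_SIE eL_tendsto logX_eq rpow_eL HH NN ev_eL one_le_exp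
  HH_ge HH_le HH_pos kk_ge kk_le X_pos one_add_log lin_le kap zz_ge zz_pos kap_nonneg kap_pow kap_le)
open Pool.Agent.Y703.CQ (Ok nr sg cu Sol Gd c2 S_BIL prs HB S_EQ ext GdA S_SYM S_C2 S_LA Nd S_BOX
  HD S_HAL)
open Pool.Agent.Y682.YQ
open Pool.Agent.Y682.YQ.Asy (Sml sml_of sml_add sml_many sml_cut sml_coll sml_rpow cmp dl_pos dl_lt)
open Pool.Agent.V11291.JF (GdF OkV df NdF S_FBOX t_FBOX prF)

theorem sml_sum {α : Type} {t : ℝ} (s : Finset α) (E : α → ℕ → ℝ) (h : ∀ a ∈ s, Sml t (E a)) :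
    Sml t fun X => ∑ a ∈ s, E a X := by
  induction s using Finset.induction_on with
  | empty =>
    intro δ hδ
    filter_upwards with X
    rw [sum_empty]
    positivity
  | insert a s ha ih =>
    have h1 := sml_add (h a (mem_insert_self a s)) (ih fun b hb => h b (mem_insert_of_mem hb))
    refine fun δ hδ => (h1 δ hδ).mono fun X hX => ?_
    show ∑ b ∈ insert a s, E b X ≤ _
    rw [sum_insert ha]
    exact hX

theorem sml_mainF {C : ℝ} (hC : 1 ≤ C) {t : ℝ} (ht : t < 1) :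
    Sml t fun X => (9 * (NN X : ℝ) + 9) ^ kk X *
    (3 ^ (7 * kk X ^ 2) * kap C X) * (X * (1 + Real.log X)) :=
  Pool.Agent.V11291.JF.sml_mainF hC ht

/-- the sets with few large split primes in a set -/
noncomputable def few (I K : Finset ℕ) (X z R : ℕ) (b : ℕ → ZMod 2) : Finset (Finset ℕ) :=
  (SS I K X).filter fun S => ((la z S).filter fun p => p % 8 = 1 ∧
      b p ≠ 0).card < 2 * (sm z S).card + R

/-- the sets outside the regular part -/
theorem out_subF (I K W : Finset ℕ) {M : ℕ} (f : Fin M → ℕ → ZMod 2) (U : Fin M → Finset ℕ)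
    (X z H k R : ℕ) :
    SS I K X \ ((RR I K X z H k (2 * W.card + R)).filter fun S => NdF R W f U (sm z S) (la z S)) ⊆
      ((((((SS I K X).filter fun S => k < S.card) ∪
      ((SS I K X).filter fun S => S.card ≤ k ∧
        X < (∏ p ∈ sm z S, p) * ∏ p ∈ la z S, XX H (jj H p))) ∪
      ((SS I K X).filter fun S => ¬ Set.InjOn (jj H) (la z S : Set ℕ))) ∪
      ((SS I K X).filter fun S => ((la z S).filter fun p => p % 8 = 1).card ≤
        2 * (sm z S).card + (2 * W.card + R) ∨ ∀ p ∈ la z S, p % 8 = 1)) ∪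
      ((SS I K X).filter fun S => S.card ≤ k ∧ ¬ Nd (sm z S ∪ W) (la z S))) ∪
      (prF M).biUnion fun e => few I K X z (2 * W.card + R) (df f U e.1 e.2) := by
  intro S hS
  rw [Finset.mem_sdiff, Finset.mem_filter] at hS
  obtain ⟨h1, h2⟩ := hS
  by_contra hc
  rw [mem_union, mem_union, mem_union, mem_union, mem_union] at hc
  simp only [mem_filter, mem_biUnion] at hc
  push Not at hc
  obtain ⟨⟨⟨⟨⟨c1, c2⟩, c3⟩, c4⟩, c5⟩, c6⟩ := hc
  have d1 : S.card ≤ k := c1 h1
  have d2 := c2 h1 d1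
  have d3 := c3 h1
  have d4 := c4 h1
  have d5 := c5 h1 d1
  have hcu : (sm z S ∪ W).card ≤ (sm z S).card + W.card := card_union_le _ _
  apply h2
  refine ⟨?_, d5, ?_, ?_⟩
  · unfold RR
    rw [mem_filter]
    exact ⟨h1, d3, d1, d2, d4.1, d4.2⟩
  · have := d4.1
    omega
  · intro i j hne
    have h3 := c6 (i, j) (by
      unfold prF
      rw [mem_filter]
      exact ⟨mem_univ _, hne⟩)
    have h4 : ¬ ((la z S).filter fun p => p % 8 = 1 ∧
        df f U i j p ≠ 0).card < 2 * (sm z S).card + (2 * W.card + R) := by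
      intro h
      apply h3
      unfold few
      rw [mem_filter]
      exact ⟨h1, h⟩
    omega

theorem t_FDQ' (h1 : S_BIL) (h3 : S_EQ) (h5 : S_FBOX)
    (hK : S_FKEY) (hC : CntP) (hS : S_SIE) (hH : S_HAL) (hB : S_JBAD) (hF : S_FEW)
    (hJF : S_FFEW) (hM : S_MER) (hCh : S_CHE) (hLo : S_LOW) (hc2 : S_C2) : S_FDQ := by
  intro I K m f W U hO hW hsep
  obtain ⟨c, X₀, hc, hlow⟩ := hLo hM hCh I K hO
  obtain ⟨δB, CB, XB, hδB, hbad⟩ := hB hS hH hM I K W hO hW.1
  have hdp := dl_pos hO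
  have hdl := dl_lt hO
  rw [Metric.tendsto_nhds]
  intro ε hε
  obtain ⟨R, C, hC1, hkey⟩ := hK h1 h3 h5 m (ε / 4) (by linarith)
  set V : ℕ := 2 * W.card + R with hV
  obtain ⟨CF, XF, hfew⟩ := hF hS hM I K V hO
  have s1 := sml_many hO (t := 1 - dl I) (by linarith) hC
  have s2 := sml_cut hO (t := 1 - dl I) (by linarith) hC
  have s3 := sml_coll hO (t := 1 - dl I) (by linarith) hC
  have s4 := sml_rpow (t := 1 - dl I) (by linarith) hfew
  have s5 := sml_rpow (t := 1 - dl I) (by linarith) hbad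
  have s6 := sml_mainF hC1 (t := 1 - dl I) (by linarith)
  have s7 : Sml (1 - dl I) fun X => ∑ e ∈ prF m,
      ((few I K X (zz X) V (df f U e.1 e.2)).card : ℝ) := by
    refine sml_sum _ _ fun e he => ?_
    unfold prF at he
    rw [mem_filter] at he
    obtain ⟨δ₀, C₀, hδ₀, hsp⟩ := hsep e.1 e.2 he.2
    obtain ⟨δ, C', X', hδ, h⟩ := hJF hS hM I K (df f U e.1 e.2) δ₀ C₀ V hO hδ₀ hsp
    exact sml_rpow (t := 1 - dl I) (by linarith) h
  have s := sml_add (sml_add (sml_add (sml_add (sml_add (sml_add s1 s2) s3) s4) s5) s6) s7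
  have hδ : (0 : ℝ) < c * ε / 4 := by positivity
  obtain ⟨WB, hWB⟩ : ∃ B : ℕ, ∀ u ∈ W, u ≤ B := ⟨W.sup id, fun u hu => Finset.le_sup (f := id) hu⟩
  have hzt : ∀ᶠ X : ℕ in atTop, WB ≤ zz X := by
    filter_upwards [ev_eL (WB + 1)] with X hX
    have h0 : (1 : ℝ) ≤ eL X := by
      have : (0 : ℝ) ≤ WB := Nat.cast_nonneg _
      linarith
    unfold zz
    apply Nat.le_floor
    have h2 : (WB : ℝ) ≤ (eL X) ^ 3 := by
      have h3 : (1 : ℝ) * eL X ≤ (eL X) ^ 2 * eL X := by
        apply mul_le_mul_of_nonneg_right _ (by linarith)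
        nlinarith
      have h4 : (eL X) ^ 3 = (eL X) ^ 2 * eL X := by ring
      linarith
    have h3 := Real.add_one_le_exp ((eL X) ^ 3)
    linarith
  have hkt : ∀ᶠ X : ℕ in atTop, W.card ≤ kk X ∧ m ≤ kk X := by
    filter_upwards [ev_eL (W.card + m + 1)] with X hX
    have h2 := kk_ge X
    have h0 : (0 : ℝ) ≤ W.card := Nat.cast_nonneg _
    have h0' : (0 : ℝ) ≤ m := Nat.cast_nonneg _
    have h3 : (W.card : ℝ) ≤ kk X := by linarith
    have h4 : (m : ℝ) ≤ kk X := by linarith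
    exact ⟨by exact_mod_cast h3, by exact_mod_cast h4⟩
  filter_upwards [s (c * ε / 4) hδ, ev_eL 1, eventually_ge_atTop X₀, hzt, hkt] with X hX hl hX0 hz hk
  have hl0 : 0 < eL X := by linarith
  have hlo := hlow X hX0
  have e00 : (-1 + dl I : ℝ) = -(1 - dl I) := by ring
  rw [e00, rpow_eL hl0] at hlo
  have hXp := X_pos hl0
  have hXp' : (0 : ℝ) < X := by exact_mod_cast hXp
  have hSpos : (0 : ℝ) < ((SS I K X).card : ℝ) := by
    refine lt_of_lt_of_le ?_ hlo
    positivity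
  have hN : (HH X : ℝ) * Real.log X < NN X := by
    unfold NN
    push_cast
    exact Nat.lt_floor_add_one _
  have hmain := hkey I K f X (zz X) (HH X) (kk X) V (NN X) (kap C X) W U hW
    (fun u hu => (hWB u hu).trans hz) hk.1 hk.2 hO hXp (HH_pos hl0) (zz_pos hl)
    (kap_nonneg hC1 X) (kap_pow hC1 hl) hN
  set T := (RR I K X (zz X) (HH X) (kk X) V).filter fun S =>
    NdF R W f U (sm (zz X) S) (la (zz X) S) with hT
  have hTG : (RR I K X (zz X) (HH X) (kk X) V).filter
      (fun S => NdF R W f U (sm (zz X) S) (la (zz X) S) ∧ GdF f U S) = T.filter (GdF f U) := by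
    rw [hT, filter_filter]
  rw [hTG] at hmain
  have hTS : T ⊆ SS I K X := (filter_subset _ _).trans (filter_subset _ _)
  have hRS : ((RR I K X (zz X) (HH X) (kk X) V).card : ℝ) ≤ ((SS I K X).card : ℝ) := by
    exact_mod_cast card_le_card (filter_subset _ _)
  have hp0 : 0 ≤ c2 ^ m := pow_nonneg hc2.2.1.le _
  have hp1 : c2 ^ m ≤ 1 := pow_le_one₀ hc2.2.1.le hc2.2.2.1.le
  have hcmp := cmp (GdF f U) T (SS I K X) hTS (c2 ^ m) hp0 hp1
  have hout : ((SS I K X \ T).card : ℝ) ≤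
      ((((SS I K X).filter fun S => kk X < S.card).card : ℝ) +
      (((SS I K X).filter fun S => S.card ≤ kk X ∧
        X < (∏ p ∈ sm (zz X) S, p) * ∏ p ∈ la (zz X) S, XX (HH X) (jj (HH X) p)).card : ℝ) +
      (((SS I K X).filter fun S => ¬ Set.InjOn (jj (HH X)) (la (zz X) S : Set ℕ)).card : ℝ) +
      (((SS I K X).filter fun S => ((la (zz X) S).filter fun p => p % 8 = 1).card ≤
        2 * (sm (zz X) S).card + V ∨ ∀ p ∈ la (zz X) S, p % 8 = 1).card : ℝ)) +
      (((SS I K X).filter fun S => S.card ≤ kk X ∧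
        ¬ Nd (sm (zz X) S ∪ W) (la (zz X) S)).card : ℝ) +
      ∑ e ∈ prF m, ((few I K X (zz X) V (df f U e.1 e.2)).card : ℝ) := by
    have g := card_le_card (out_subF I K W f U X (zz X) (HH X) (kk X) R)
    rw [← hV, ← hT] at g
    have g3 := Finset.card_biUnion_le (s := prF m)
      (t := fun e => few I K X (zz X) V (df f U e.1 e.2))
    have g2 := ((g.trans (card_union_le _ _)).trans (Nat.add_le_add_right
      ((card_union_le _ _).trans (Nat.add_le_add_right ((card_union_le _ _).trans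
      (Nat.add_le_add_right ((card_union_le _ _).trans
      (Nat.add_le_add_right (card_union_le _ _) _)) _)) _)) _)).trans (Nat.add_le_add_left g3 _)
    exact_mod_cast g2
  have htot : |(((SS I K X).filter (GdF f U)).card : ℝ) - c2 ^ m * ((SS I K X).card : ℝ)| ≤
      ε / 4 * ((SS I K X).card : ℝ) +
        c * ε / 4 * (X * Real.exp (-(1 - dl I) * eL X)) := by
    have g1 : ε / 4 * ((RR I K X (zz X) (HH X) (kk X) V).card : ℝ) ≤
        ε / 4 * ((SS I K X).card : ℝ) := mul_le_mul_of_nonneg_left hRS (by positivity)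
    linarith
  rw [Real.dist_eq]
  have e3 : (((SS I K X).filter (GdF f U)).card : ℝ) / ((SS I K X).card : ℝ) - c2 ^ m =
      ((((SS I K X).filter (GdF f U)).card : ℝ) - c2 ^ m * ((SS I K X).card : ℝ)) /
        ((SS I K X).card : ℝ) := by
    field_simp
  rw [e3, abs_div, abs_of_pos hSpos, div_lt_iff₀ hSpos]
  refine lt_of_le_of_lt htot ?_
  have g2 : c * ε / 4 * (X * Real.exp (-(1 - dl I) * eL X)) ≤ ε / 4 * ((SS I K X).card : ℝ) := by
    calc c * ε / 4 * (X * Real.exp (-(1 - dl I) * eL X)) =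
          ε / 4 * (c * X * Real.exp (-(1 - dl I) * eL X)) := by ring
      _ ≤ _ := mul_le_mul_of_nonneg_left hlo (by linarith)
  have g4 : 0 < ε * ((SS I K X).card : ℝ) := by positivity
  linarith

/-- **The joint proportion for several functions.** -/
theorem t_FDQ : S_FDQ :=
  t_FDQ' Pool.Agent.Y710.CQ.t_BIL Pool.Agent.Y356.CQ.t_EQ t_FBOX KC.t_FKEY Cnt.t_CNT
    Pool.Agent.Y488.CX.t_SIE Pool.Agent.Y475.CQ.t_HAL Bd.t_JBAD Few.t_FEW Fe.t_FFEW
    t_MER t_CHE Low.t_LOW Pool.Agent.Y948.CQ.t_C2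

/-- **The joint proportion for several functions, in terms of the numbers `D`.** -/
theorem t_FDEN : S_FDEN := by
  intro I K M f W V hOk hW hsep
  refine (t_FDQ I K M f W V hOk hW hsep).congr fun X => ?_
  have e1 := Ns.card_eq I K X (GdF f V)
  have e2 := Ns.card_eq I K X (fun _ => True)
  rw [Finset.filter_true] at e2
  simp only [and_true] at e2
  rw [← e1, ← e2]

end Pool.Agent.V11291.JH
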