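import Pool.Agent.V11291.JH.Ind

/-!
# Families of discriminants: the proportion of the extensions
-/

set_option autoImplicit false
set_option linter.style.haveILetI false

open Finset Filter

namespace Pool.Agent.V11291.JH

open Pool.Agent.Y687.MQ (AdmD matD)
open Pool.Agent.Y703.CQ (c2)
open Pool.Agent.Y682.YQ (H9)
open Pool.Agent.Y682.YQ.CA (count)

/-- the family -/
def Fm (S : Finset ℤ) : Prop := (∀ d ∈ S, AdmD d ∧ H9 d) ∧
  (∀ T ⊆ S, T.Nonempty → ¬ IsSquare (∏ d ∈ T, d)) ∧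
  ∀ T ⊆ S, ∀ D k : ℤ, AdmD D → ∏ d ∈ T, d = D * k ^ 2 → (matD D).det ≠ 0

/-- the squarefree parts of the products -/
lemma prodS {S : Finset ℤ} (h : ∀ d ∈ S, AdmD d ∧ H9 d) :
    ∃ C k : ℤ, AdmD C ∧ H9 C ∧ k ≠ 0 ∧ ∏ d ∈ S, d = C * k ^ 2 := by
  classical
  induction S using Finset.induction_on with
  | empty =>
    exact ⟨1, 1, Pool.Agent.Y682.YS.oneD.1, Pool.Agent.Y682.YS.oneD.2, one_ne_zero, by simp⟩
  | insert a S ha ih =>
    obtain ⟨C, k, h1, h2, h3, h4⟩ := ih fun d hd => h d (mem_insert_of_mem hd)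
    obtain ⟨h5, h6⟩ := h a (mem_insert_self a S)
    obtain ⟨C', k', h7, h8, h9, h10, -⟩ := Pool.Agent.Y682.YS.mulD h5 h6 h1 h2
    refine ⟨C', k' * k, h7, h8, mul_ne_zero h9 h3, ?_⟩
    rw [prod_insert ha, h4, ← mul_assoc, h10]
    ring

/-- the squarefree part is unique -/
lemma sq_uniq {C C' x y : ℤ} (hC : AdmD C) (hC' : AdmD C') (hx : x ≠ 0)
    (h : C * x ^ 2 = C' * y ^ 2) : C = C' := by
  have h0 := adm_ne0 hC
  have h0' := adm_ne0 hC'
  have hy : y ≠ 0 := by
    rintro rfl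
    apply mul_ne_zero h0 (pow_ne_zero 2 hx)
    rw [h]
    ring
  have h1 : C * C' * x ^ 2 = (C' * y) ^ 2 := by
    linear_combination C' * h
  have h2 : x ∣ C' * y := by
    rw [← Int.pow_dvd_pow_iff two_ne_zero]
    exact Dvd.intro_left _ h1
  obtain ⟨k, hk⟩ := h2
  have h3 : C * C' = 1 * k ^ 2 := by
    have h4 : C * C' * x ^ 2 = 1 * k ^ 2 * x ^ 2 := by
      rw [h1, hk]
      ring
    exact mul_right_cancel₀ (pow_ne_zero 2 hx) h4
  have hk0 : k ≠ 0 := by
    rintro rfl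
    apply mul_ne_zero h0 h0'
    rw [h3]
    ring
  have h5 := pf_sqf hC.1 hC'.1 squarefree_one hk0 h3
  refine adm_inj hC hC' ?_
  rw [Int.natAbs_one, Nat.primeFactors_one] at h5
  exact symmDiff_eq_bot.1 h5.symm

lemma prod_sd (f : ℤ → ℤ) (T S : Finset ℤ) : (∏ p ∈ T, f p) * ∏ p ∈ S, f p =
    (∏ p ∈ symmDiff T S, f p) * (∏ p ∈ T ∩ S, f p) ^ 2 := by
  classical
  have h1 : ∏ p ∈ T, f p = (∏ p ∈ T \ S, f p) * ∏ p ∈ T ∩ S, f p := by
    rw [← prod_union (disjoint_sdiff_inter T S), sdiff_union_inter]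
  have h2 : ∏ p ∈ S, f p = (∏ p ∈ S \ T, f p) * ∏ p ∈ T ∩ S, f p := by
    rw [inter_comm, ← prod_union (disjoint_sdiff_inter S T), sdiff_union_inter]
  have h3 : ∏ p ∈ symmDiff T S, f p = (∏ p ∈ T \ S, f p) * ∏ p ∈ S \ T, f p := by
    have : symmDiff T S = (T \ S) ∪ (S \ T) := rfl
    rw [this, prod_union]
    exact disjoint_sdiff_sdiff
  rw [h1, h2, h3]
  ring

/-- the criterion for the extension of the family -/
def Ex (S : Finset ℤ) (D : ℤ) : Prop :=
  ∀ T ⊆ S, ∀ D' k : ℤ, AdmD D' → D * ∏ d ∈ T, d = D' * k ^ 2 → (matD D').det ≠ 0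

lemma bound_tendsto {f f' g : ℕ → ℝ} {L N : ℝ} (h : Tendsto (fun X => f X / g X) atTop (nhds L))
    (hg : Tendsto g atTop atTop) (hN : ∀ X, |f' X - f X| ≤ N) :
    Tendsto (fun X => f' X / g X) atTop (nhds L) := by
  have h1 : Tendsto (fun X => N / g X) atTop (nhds 0) := hg.const_div_atTop N
  have h2 : Tendsto (fun X => f' X / g X - f X / g X) atTop (nhds 0) := by
    refine squeeze_zero_norm' ?_ h1
    filter_upwards [hg.eventually_gt_atTop 0] with X hX
    rw [← sub_div, Real.norm_eq_abs, abs_div, abs_of_pos hX]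
    exact div_le_div_of_nonneg_right (hN X) hX.le
  have h3 := h2.add h
  rw [zero_add] at h3
  refine h3.congr fun X => ?_
  ring

/-- the class is infinite -/
lemma tend_class {s : ℤ} (hs : s = 1 ∨ s = -1) :
    Tendsto (fun X : ℕ => (count (fun D => AdmD D ∧ 0 < s * D ∧ H9 D) X : ℝ)) atTop atTop := by
  obtain ⟨c, X₀, hc, h⟩ := Pool.Agent.Y682.YQ.low9 hs
  have h1 : Tendsto (fun X : ℕ => c * Real.exp (Real.log (X : ℝ) / 4)) atTop atTop := by
    refine Tendsto.const_mul_atTop hc (Real.tendsto_exp_atTop.comp ?_)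
    exact (Real.tendsto_log_atTop.comp tendsto_natCast_atTop_atTop).atTop_div_const (by norm_num)
  refine tendsto_atTop_mono' _ ?_ h1
  filter_upwards [eventually_ge_atTop X₀, eventually_ge_atTop 3] with X hX hX3
  refine le_trans ?_ (h X hX)
  have hX3' : (3 : ℝ) ≤ X := by exact_mod_cast hX3
  have hl : 1 ≤ Real.log X := by
    rw [Real.le_log_iff_exp_le (by linarith)]
    have := Real.exp_one_lt_d9
    linarith
  rw [mul_assoc]
  refine mul_le_mul_of_nonneg_left ?_ hc.le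
  have e1 : (X : ℝ) = Real.exp (Real.log X) := (Real.exp_log (by linarith)).symm
  have e2 : (Real.log X) ^ (-(3 / 4) : ℝ) = Real.exp (Real.log (Real.log X) * (-(3 / 4))) := by
    rw [Real.rpow_def_of_pos (by linarith)]
  rw [e2]
  nth_rewrite 2 [e1]
  rw [← Real.exp_add]
  apply Real.exp_le_exp.2
  have e3 := Real.log_le_sub_one_of_pos (x := Real.log X) (by linarith)
  linarith

/-- **the proportion of the extensions of a family** -/
theorem prop_fam {s : ℤ} (hs : s = 1 ∨ s = -1) {S : Finset ℤ} (hS : Fm S) :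
    Tendsto (fun X : ℕ => (count (fun D => AdmD D ∧ 0 < s * D ∧
      (H9 D ∧ (D ∉ S ∧ Fm (insert D S)))) X : ℝ) /
      (count (fun D => AdmD D ∧ 0 < s * D ∧ H9 D) X : ℝ)) atTop (nhds (c2 ^ (2 ^ S.card))) := by
  classical
  have hp : ∀ T : Finset ℤ, T ⊆ S → ∃ C k : ℤ, AdmD C ∧ H9 C ∧ k ≠ 0 ∧ ∏ d ∈ T, d = C * k ^ 2 :=
    fun T hT => prodS fun d hd => hS.1 d (hT hd)
  choose! bT kT hb1 hb2 hb3 hb4 using hp
  have hcard : 2 ^ S.card = S.powerset.card := (card_powerset S).symm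
  obtain ⟨e, -⟩ : ∃ e : Fin (2 ^ S.card) ≃ S.powerset, True :=
    ⟨(finCongr hcard).trans S.powerset.equivFin.symm, trivial⟩
  have hsub : ∀ i, (e i).1 ⊆ S := fun i => mem_powerset.1 (e i).2
  have hinj : Function.Injective (fun i => bT (e i).1) := by
    intro i j hij
    have hij' : bT (e i).1 = bT (e j).1 := hij
    by_contra hne
    have hne' : (e i).1 ≠ (e j).1 := fun h => hne (e.injective (Subtype.ext h))
    have h1 : (symmDiff (e i).1 (e j).1).Nonempty := by
      rw [Finset.nonempty_iff_ne_empty]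
      intro h
      exact hne' (symmDiff_eq_bot.1 h)
    have h2 : symmDiff (e i).1 (e j).1 ⊆ S := by
      intro x hx
      rw [mem_symmDiff] at hx
      rcases hx with hx | hx
      · exact hsub i hx.1
      · exact hsub j hx.1
    apply hS.2.1 _ h2 h1
    have h3 := prod_sd (fun d => d) (e i).1 (e j).1
    rw [hb4 _ (hsub i), hb4 _ (hsub j), hij'] at h3
    have h4 : (∏ p ∈ (e i).1 ∩ (e j).1, p) ≠ 0 := prod_ne_zero_iff.2 fun d hd =>
      adm_ne0 (hS.1 d (hsub i (mem_inter.1 hd).1)).1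
    have h5 : (bT (e j).1 * kT (e i).1 * kT (e j).1) ^ 2 =
        (∏ p ∈ symmDiff (e i).1 (e j).1, p) * (∏ p ∈ (e i).1 ∩ (e j).1, p) ^ 2 := by
      rw [← h3]
      ring
    have h6 : (∏ p ∈ (e i).1 ∩ (e j).1, p) ∣ bT (e j).1 * kT (e i).1 * kT (e j).1 := by
      rw [← Int.pow_dvd_pow_iff two_ne_zero]
      exact Dvd.intro_left _ h5.symm
    obtain ⟨k, hk⟩ := h6
    refine ⟨k, ?_⟩
    have h7 : (∏ p ∈ symmDiff (e i).1 (e j).1, p) * (∏ p ∈ (e i).1 ∩ (e j).1, p) ^ 2 =
        k * k * (∏ p ∈ (e i).1 ∩ (e j).1, p) ^ 2 := by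
      rw [← h5, hk]
      ring
    exact mul_right_cancel₀ (pow_ne_zero 2 h4) h7
  have hEx : ∀ D : ℤ, AdmD D → H9 D → (Ex S D ↔ Crit (fun i => bT (e i).1) D) := by
    intro D hD h9
    constructor
    · intro h i D' k h1 h2
      refine h (e i).1 (hsub i) D' (k * kT (e i).1) h1 ?_
      rw [hb4 _ (hsub i), ← mul_assoc, h2]
      ring
    · intro h T hT D' k h1 h2
      obtain ⟨i, hi⟩ := e.surjective ⟨T, mem_powerset.2 hT⟩
      have hi' : (e i).1 = T := congrArg Subtype.val hi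
      obtain ⟨C, k', g1, g2, g3, g4, -⟩ := Pool.Agent.Y682.YS.mulD hD h9 (hb1 T hT) (hb2 T hT)
      have g5 : D' = C := by
        have hk : k ≠ 0 := by
          rintro rfl
          apply mul_ne_zero (adm_ne0 hD) (prod_ne_zero_iff.2 fun d hd => adm_ne0 (hS.1 d (hT hd)).1)
          rw [h2]
          ring
        refine sq_uniq h1 g1 hk (y := k' * kT T) ?_
        rw [← h2, hb4 T hT, ← mul_assoc, g4]
        ring
      rw [g5]
      refine h i C k' g1 ?_
      show D * bT (e i).1 = _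
      rw [hi']
      exact g4
  have hmain := joint9 hs (fun i => bT (e i).1) (fun i => hb1 _ (hsub i)) (fun i => hb2 _ (hsub i))
    hinj (Ex S) hEx
  refine bound_tendsto (N := ((univ.image fun i => bT (e i).1).card : ℝ)) hmain (tend_class hs)
    fun X => ?_
  -- comparison
  have k1 : ∀ D : ℤ, AdmD D → H9 D → D ∉ S → Fm (insert D S) → Ex S D := by
    intro D _ _ hDS h T hT D' k h1 h2
    have h3 : D ∉ T := fun h' => hDS (hT h')
    refine h.2.2 (insert D T) (insert_subset_insert D hT) D' k h1 ?_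
    rw [prod_insert h3]
    exact h2
  have k2 : ∀ D : ℤ, AdmD D → H9 D → D ∉ (univ.image fun i => bT (e i).1) → Ex S D →
      D ∉ S ∧ Fm (insert D S) := by
    intro D hD h9 hDB h
    have hprodT : ∀ T ⊆ S, ¬ IsSquare (D * ∏ d ∈ T, d) := by
      intro T hT hsq
      apply hDB
      obtain ⟨i, hi⟩ := e.surjective ⟨T, mem_powerset.2 hT⟩
      have hi' : (e i).1 = T := congrArg Subtype.val hi
      refine mem_image.2 ⟨i, mem_univ i, ?_⟩
      show bT (e i).1 = D
      rw [hi']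
      obtain ⟨r, hr⟩ := hsq
      refine sq_uniq (hb1 T hT) hD (mul_ne_zero (adm_ne0 hD) (hb3 T hT)) (y := r) ?_
      have h5 : D * (bT T * kT T ^ 2) = r * r := by rw [← hb4 T hT, hr]
      linear_combination D * h5
    have hDS : D ∉ S := by
      intro hm
      apply hprodT {D} (singleton_subset_iff.2 hm)
      rw [prod_singleton]
      exact ⟨D, rfl⟩
    refine ⟨hDS, ⟨fun d hd => ?_, fun T hT hne => ?_, fun T hT D' k h1 h2 => ?_⟩⟩
    · rcases mem_insert.1 hd with rfl | hd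
      · exact ⟨hD, h9⟩
      · exact hS.1 d hd
    · by_cases hm : D ∈ T
      · have h3 : T.erase D ⊆ S := by
          intro x hx
          rw [mem_erase] at hx
          exact (mem_insert.1 (hT hx.2)).resolve_left hx.1
        rw [← mul_prod_erase T (fun d => d) hm]
        exact hprodT _ h3
      · refine hS.2.1 T (fun x hx => (mem_insert.1 (hT hx)).resolve_left ?_) hne
        rintro rfl
        exact hm hx
    · by_cases hm : D ∈ T
      · have h3 : T.erase D ⊆ S := by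
          intro x hx
          rw [mem_erase] at hx
          exact (mem_insert.1 (hT hx.2)).resolve_left hx.1
        rw [← mul_prod_erase T (fun d => d) hm] at h2
        exact h _ h3 D' k h1 h2
      · refine hS.2.2 T (fun x hx => (mem_insert.1 (hT hx)).resolve_left ?_) D' k h1 h2
        rintro rfl
        exact hm hx
  have k3 := count_split (fun D => AdmD D ∧ 0 < s * D ∧ (H9 D ∧ Ex S D))
    (fun D => D ∉ S ∧ Fm (insert D S)) X
  have k4 : count (fun D => (AdmD D ∧ 0 < s * D ∧ (H9 D ∧ Ex S D)) ∧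
      (D ∉ S ∧ Fm (insert D S))) X = count (fun D => AdmD D ∧ 0 < s * D ∧
      (H9 D ∧ (D ∉ S ∧ Fm (insert D S)))) X := by
    refine count_congr (fun D => ?_) X
    constructor
    · rintro ⟨⟨g1, g2, g3, -⟩, g5⟩
      exact ⟨g1, g2, g3, g5⟩
    · rintro ⟨g1, g2, g3, g4, g5⟩
      exact ⟨⟨g1, g2, g3, k1 D g1 g3 g4 g5⟩, g4, g5⟩
  have k5 : count (fun D => (AdmD D ∧ 0 < s * D ∧ (H9 D ∧ Ex S D)) ∧
      ¬ (D ∉ S ∧ Fm (insert D S))) X ≤ (univ.image fun i => bT (e i).1).card := by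
    unfold count
    rw [← Nat.card_eq_finsetCard]
    refine Nat.card_le_card_of_injective (fun D => ⟨D.1, ?_⟩) ?_
    · obtain ⟨D, -, ⟨g1, g2, g3, g4⟩, g5⟩ := D
      by_contra h
      exact g5 (k2 D g1 g3 h g4)
    · rintro ⟨D, hD⟩ ⟨D', hD'⟩ h
      have h' : D = D' := congrArg Subtype.val (show
        (⟨D, _⟩ : {x // x ∈ univ.image fun i => bT (e i).1}) = ⟨D', _⟩ from h)
      exact Subtype.ext h'
  rw [← k4, k3]
  push_cast
  rw [sub_add_cancel_left, abs_neg, abs_of_nonneg (Nat.cast_nonneg _)]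
  exact_mod_cast k5

end Pool.Agent.V11291.JH
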