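import Pool.Agent.Y405.JQ.MER
import Pool.Agent.V11291.JH.Stm

/-!
# Separation of the masks by primes which are inert in the cyclotomic `ℤ₃`-extension
-/

set_option autoImplicit false

open scoped Classical

namespace Pool.Agent.V11291.JH

open Finset
open Pool.Agent.Y703.CQ (nr)
open Pool.Agent.Y405.JQ (sg sg_neg jac_sum exists_neg)
open scoped NumberTheorySymbols

theorem sep_mask {e : Finset ℕ} (hne : e.Nonempty)
    (he : ∀ u ∈ e, u.Prime ∧ u ≠ 2 ∧ u ≠ 7 ∧ u ≠ 3) :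
    ∃ δ C : ℝ, 0 < δ ∧ ∀ y : ℕ, 3 ≤ y → δ * Real.log (Real.log y) - C ≤
      ∑ p ∈ (range (y + 1)).filter
        (fun p => Pool.Agent.Y682.YQ.Sp p ∧ ∑ u ∈ e, nr p u ≠ 0), (1 : ℝ) / p := by
  obtain ⟨m, hm⟩ : ∃ m : ℕ, m = ∏ u ∈ e, u := ⟨_, rfl⟩
  have hm0 : m ≠ 0 := by
    rw [hm]
    exact prod_ne_zero_iff.mpr fun v hv => (he v hv).1.ne_zero
  have hcop : Nat.Coprime 504 m := by
    rw [hm]
    refine Nat.Coprime.prod_right fun u hu => ?_
    obtain ⟨h1, h2, h3, h4⟩ := he u hu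
    rw [Nat.coprime_comm, h1.coprime_iff_not_dvd]
    intro h
    have h5 : u ∣ 2 ^ 3 * (3 ^ 2 * 7) := h
    rcases h1.dvd_mul.mp h5 with h6 | h6
    · exact h2 ((Nat.prime_dvd_prime_iff_eq h1 Nat.prime_two).mp (h1.dvd_of_dvd_pow h6))
    · rcases h1.dvd_mul.mp h6 with h7 | h7
      · exact h4 ((Nat.prime_dvd_prime_iff_eq h1 Nat.prime_three).mp (h1.dvd_of_dvd_pow h7))
      · exact h3 ((Nat.prime_dvd_prime_iff_eq h1 (by norm_num)).mp h7)
  have hodd : Odd m := by
    rw [← Nat.not_even_iff_odd, even_iff_two_dvd]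
    intro h
    have h1 : 2 ∣ Nat.gcd 504 m := Nat.dvd_gcd (by norm_num) h
    rw [hcop] at h1
    norm_num at h1
  obtain ⟨b, hb⟩ := exists_neg m e hne (fun u hu => ⟨(he u hu).1, (he u hu).2.1, (he u hu).2.2.1⟩) hm
  -- `169` is `1` modulo `8`, `1` modulo `7`, `7` modulo `9`
  obtain ⟨a₀, ha1, ha2⟩ := Nat.chineseRemainder hcop 169 b
  obtain ⟨a, ha⟩ : ∃ a : ℕ, a = a₀ % (504 * m) := ⟨_, rfl⟩
  have hQ : 1 ≤ 504 * m := by omega
  have halt : a < 504 * m := by
    rw [ha]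
    exact Nat.mod_lt _ hQ
  have h504 : a % 504 = 169 := by
    rw [ha, Nat.mod_mod_of_dvd _ ⟨m, rfl⟩]
    exact ha1
  have hJa : J((a : ℤ) | m) = -1 := by
    have h1 : J((a : ℤ) | m) = J((b : ℤ) | m) := by
      apply jacobiSym.mod_left'
      have h2 : a % m = b % m := by
        rw [ha, Nat.mod_mod_of_dvd _ ⟨504, by ring⟩]
        exact ha2
      exact_mod_cast h2
    rw [h1, hb]
  have ham : a.Coprime m := by
    have h1 : J((a : ℤ) | m) ≠ 0 := by rw [hJa]; norm_num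
    rw [Ne, jacobiSym.eq_zero_iff, not_and_or] at h1
    rcases h1 with h1 | h1
    · exact absurd hm0 h1
    · rw [not_not, Int.gcd_natCast_natCast] at h1
      exact h1
  have hac : a.Coprime (504 * m) := by
    refine Nat.Coprime.mul_right ?_ ham
    have h5 : (a % 504).Coprime 504 := by rw [h504]; decide
    rw [Nat.coprime_iff_gcd_eq_one, ← Nat.gcd_rec, Nat.gcd_comm] at h5
    exact h5
  obtain ⟨C, hC0, hC⟩ := Pool.Agent.Y405.CQ.mertens_ap (504 * m) hQ a halt hac
  have hphi : (0 : ℝ) < (Nat.totient (504 * m) : ℝ) := by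
    exact_mod_cast Nat.totient_pos.mpr (by omega)
  refine ⟨1 / (Nat.totient (504 * m) : ℝ), C, by positivity, fun y hy => ?_⟩
  have h1 := (abs_le.1 (hC y hy)).1
  have h2 : ∑ p ∈ (Icc 1 y).filter (fun p => p.Prime ∧ p % (504 * m) = a), (1 : ℝ) / p ≤
      ∑ p ∈ (range (y + 1)).filter
        (fun p => Pool.Agent.Y682.YQ.Sp p ∧ ∑ u ∈ e, nr p u ≠ 0), (1 : ℝ) / p := by
    refine Finset.sum_le_sum_of_subset_of_nonneg ?_ fun p _ _ => by positivity
    intro p hp
    obtain ⟨g1, g2, g3⟩ := mem_filter.1 hp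
    have g4 : p % 504 = 169 := by
      have : p % (504 * m) % 504 = p % 504 := Nat.mod_mod_of_dvd _ ⟨m, rfl⟩
      rw [← this, g3, h504]
    have g5 : J((p : ℤ) | m) = -1 := by
      have h1 : J((p : ℤ) | m) = J((a : ℤ) | m) := by
        apply jacobiSym.mod_left'
        have h2 : p % m = a % m := by
          have : p % (504 * m) % m = p % m := Nat.mod_mod_of_dvd _ ⟨504, by ring⟩
          rw [← this, g3]
        exact_mod_cast h2
      rw [h1, hJa]
    have g6 : p ∉ e := by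
      intro h
      have h5 : p.Coprime m := by
        have h1 : J((p : ℤ) | m) ≠ 0 := by rw [g5]; norm_num
        rw [Ne, jacobiSym.eq_zero_iff, not_and_or] at h1
        rcases h1 with h1 | h1
        · exact absurd hm0 h1
        · rw [not_not, Int.gcd_natCast_natCast] at h1
          exact h1
      have h6 : p ∣ m := by
        rw [hm]
        exact dvd_prod_of_mem _ h
      exact g2.one_lt.ne' (Nat.eq_one_of_dvd_coprimes h5 dvd_rfl h6)
    have g7 : J((p : ℤ) | m) = sg (∑ u ∈ e, nr p u) := by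
      rw [jacobiSym.quadratic_reciprocity_one_mod_four (by omega) hodd, hm]
      exact jac_sum p g2 e (fun u hu => (he u hu).1) g6
    rw [mem_filter, mem_range]
    refine ⟨by have := (mem_Icc.1 g1).2; omega, ⟨g2, by omega, by omega, ?_⟩, ?_⟩
    · show p % 9 = 2 ∨ p % 9 = 4 ∨ p % 9 = 5 ∨ p % 9 = 7
      omega
    · rw [g7, sg_neg] at g5
      exact g5
  linarith

end Pool.Agent.V11291.JH
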