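import Pool.Agent.Y682.YQ.Prp
import Pool.Agent.Y682.YS.Prod
import Pool.Agent.V11291.JH.Asy
import Pool.Agent.V11291.JH.Sep

/-!
# The joint proportion in terms of the discriminants
-/

set_option autoImplicit false
set_option linter.style.haveILetI false

open Finset Filter

namespace Pool.Agent.V11291.JH

open Pool.Agent.Y687.MQ (AdmD matD)
open Pool.Agent.Y703.CQ (Gd c2 nr)
open Pool.Agent.Y682.YQ (H9 h9_iff cl_iff Hn)
open Pool.Agent.Y682.YQ.CA (KK ok_KK fD gd_iff adm_iff count count_eq)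
open Pool.Agent.V11291.JF (GdF OkV df)

lemma adm_ne0 {D : ℤ} (h : AdmD D) : D ≠ 0 := fun h0 => by
  have := h.2.1
  rw [h0] at this
  norm_num at this

/-- the prime factors of the squarefree part of a product -/
lemma pf_sqf {A B C k : ℤ} (hA : Squarefree A) (hB : Squarefree B) (hC : Squarefree C)
    (hk : k ≠ 0) (h : A * B = C * k ^ 2) :
    C.natAbs.primeFactors = symmDiff A.natAbs.primeFactors B.natAbs.primeFactors := by
  classical
  have hA0 : A.natAbs ≠ 0 := Int.natAbs_ne_zero.2 hA.ne_zero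
  have hB0 : B.natAbs ≠ 0 := Int.natAbs_ne_zero.2 hB.ne_zero
  have hC0 : C.natAbs ≠ 0 := Int.natAbs_ne_zero.2 hC.ne_zero
  have hk0 : k.natAbs ≠ 0 := Int.natAbs_ne_zero.2 hk
  have h' : A.natAbs * B.natAbs = C.natAbs * k.natAbs ^ 2 := by
    rw [← Int.natAbs_mul, h, Int.natAbs_mul, Int.natAbs_pow]
  have hA' := Int.squarefree_natAbs.2 hA
  have hB' := Int.squarefree_natAbs.2 hB
  have hC' := Int.squarefree_natAbs.2 hC
  have key : ∀ (n : ℕ), Squarefree n → ∀ p : ℕ, p.Prime →
      n.factorization p = if p ∈ n.primeFactors then 1 else 0 := by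
    intro n hn p hp
    have h1 := (Nat.squarefree_iff_factorization_le_one hn.ne_zero).1 hn p
    split_ifs with h2
    · have h3 : n.factorization p ≠ 0 := by
        rw [← Finsupp.mem_support_iff, Nat.support_factorization]
        exact h2
      omega
    · rw [← Nat.support_factorization, Finsupp.notMem_support_iff] at h2
      exact h2
  ext p
  by_cases hp : p.Prime
  · have h1 : (A.natAbs * B.natAbs).factorization p = (C.natAbs * k.natAbs ^ 2).factorization p := by
      rw [h']
    rw [Nat.factorization_mul hA0 hB0, Nat.factorization_mul hC0 (pow_ne_zero _ hk0),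
      Nat.factorization_pow, Finsupp.add_apply, Finsupp.add_apply, Finsupp.smul_apply, smul_eq_mul,
      key _ hA' p hp, key _ hB' p hp, key _ hC' p hp] at h1
    rw [mem_symmDiff]
    by_cases a : p ∈ A.natAbs.primeFactors <;> by_cases b : p ∈ B.natAbs.primeFactors <;>
      by_cases c : p ∈ C.natAbs.primeFactors <;> simp [a, b, c] at h1 ⊢ <;> omega
  · constructor
    · intro h2
      exact absurd (Nat.prime_of_mem_primeFactors h2) hp
    · intro h2
      rw [mem_symmDiff] at h2
      rcases h2 with h2 | h2 <;> exact absurd (Nat.prime_of_mem_primeFactors h2.1) hp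

lemma adm_inj {A B : ℤ} (hA : AdmD A) (hB : AdmD B)
    (h : A.natAbs.primeFactors = B.natAbs.primeFactors) : A = B := by
  have h1 : A.natAbs = B.natAbs := by
    rw [← Nat.prod_primeFactors_of_squarefree (Int.squarefree_natAbs.2 hA.1), h,
      Nat.prod_primeFactors_of_squarefree (Int.squarefree_natAbs.2 hB.1)]
  rcases Int.natAbs_eq_natAbs_iff.1 h1 with h2 | h2
  · exact h2
  · exfalso
    have h3 := hA.2.1
    have h4 := hB.2.1
    omega

lemma pf_ne {B : ℤ} (hB : AdmD B) (_hB9 : H9 B) : ∀ u ∈ B.natAbs.primeFactors,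
    u.Prime ∧ u ≠ 2 ∧ u ≠ 7 ∧ u ≠ 3 := by
  intro u hu
  have hp := Nat.prime_of_mem_primeFactors hu
  have hd : (u : ℤ) ∣ B := Int.natCast_dvd.2 (Nat.dvd_of_mem_primeFactors hu)
  obtain ⟨h1, h2, h3⟩ := Pool.Agent.Y682.YQ.adm_ne hB hp hd
  refine ⟨hp, h1, h2, (hB.2.2.2 u hp hd).1⟩

/-- the criterion for all the twists -/
def Crit {M : ℕ} (B : Fin M → ℤ) (D : ℤ) : Prop :=
  ∀ (i : Fin M) (D' k : ℤ), AdmD D' → D * B i = D' * k ^ 2 → (matD D').det ≠ 0

open Classical in
lemma crit_iff {M : ℕ} {B : Fin M → ℤ} (hB : ∀ i, AdmD (B i)) (hB9 : ∀ i, H9 (B i)) {D : ℤ}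
    (hD : AdmD D) (h9 : H9 D) :
    Crit B D ↔ GdF (fun _ : Fin M => fD) (fun i => (B i).natAbs.primeFactors)
      D.natAbs.primeFactors := by
  constructor
  · intro h i
    obtain ⟨C, k, h1, h2, h3, h4, -⟩ := Pool.Agent.Y682.YS.mulD hD h9 (hB i) (hB9 i)
    have h5 := h i C k h1 h4
    rw [← gd_iff h1, pf_sqf hD.1 (hB i).1 h1.1 h3 h4] at h5
    exact h5
  · intro h i C k h1 h4
    have h3 : k ≠ 0 := by
      rintro rfl
      apply mul_ne_zero (adm_ne0 hD) (adm_ne0 (hB i))
      rw [h4]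
      ring
    have h5 := h i
    rw [← gd_iff h1, pf_sqf hD.1 (hB i).1 h1.1 h3 h4]
    exact h5

/-- **the joint proportion**, for a property `Q` which is equivalent to the criterion -/
theorem joint9 {s : ℤ} (hs : s = 1 ∨ s = -1) {M : ℕ} (B : Fin M → ℤ) (hB : ∀ i, AdmD (B i))
    (hB9 : ∀ i, H9 (B i)) (hinj : Function.Injective B) (Q : ℤ → Prop)
    (hQ : ∀ D : ℤ, AdmD D → H9 D → (Q D ↔ Crit B D)) :
    Tendsto (fun X : ℕ => (count (fun D => AdmD D ∧ 0 < s * D ∧ (H9 D ∧ Q D)) X : ℝ) /
      (count (fun D => AdmD D ∧ 0 < s * D ∧ H9 D) X : ℝ)) atTop (nhds (c2 ^ M)) := by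
  classical
  have hok : OkV (univ.biUnion fun i : Fin M => (B i).natAbs.primeFactors)
      (fun i : Fin M => (B i).natAbs.primeFactors) := by
    refine ⟨fun u hu => ?_, fun i => ?_⟩
    · rw [mem_biUnion] at hu
      obtain ⟨i, -, hi⟩ := hu
      obtain ⟨h1, h2, h3, -⟩ := pf_ne (hB i) (hB9 i) u hi
      exact ⟨h1, h2, h3⟩
    · exact subset_biUnion_of_mem (fun i : Fin M => (B i).natAbs.primeFactors) (mem_univ i)
  have hsep : Sep (fun _ : Fin M => fD) (fun i : Fin M => (B i).natAbs.primeFactors) := by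
    intro i j hij
    have hne : (symmDiff (B i).natAbs.primeFactors (B j).natAbs.primeFactors).Nonempty := by
      rw [Finset.nonempty_iff_ne_empty]
      intro h
      exact hij (hinj (adm_inj (hB i) (hB j) (symmDiff_eq_bot.1 h)))
    obtain ⟨δ, C, hδ, h⟩ := sep_mask hne fun u hu => by
      rw [mem_symmDiff] at hu
      rcases hu with hu | hu
      · exact pf_ne (hB i) (hB9 i) u hu.1
      · exact pf_ne (hB j) (hB9 j) u hu.1
    refine ⟨δ, C, hδ, fun y hy => (h y hy).trans (le_of_eq ?_)⟩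
    refine sum_congr (filter_congr fun p _ => ?_) fun _ _ => rfl
    refine and_congr_right fun _ => ?_
    unfold df
    have : ∀ x y : ZMod 2, x + x + y = y := by decide
    rw [this]
  refine (t_FDEN {3, 5} (KK s) M (fun _ => fD) _ (fun i => (B i).natAbs.primeFactors) (ok_KK hs) hok
    hsep).congr fun X => ?_
  rw [count_eq hs (fun D => H9 D ∧ Q D) X, count_eq hs (fun D => H9 D) X]
  have habs : ∀ n : ℕ, (s * (n : ℤ)).natAbs = n := by
    intro n
    rcases hs with rfl | rfl
    · simp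
    · simp
  congr 2
  · congr 1
    ext n
    simp only [Finset.mem_filter, Finset.mem_Icc]
    refine and_congr_right fun hn => and_congr_right fun hsq => ?_
    rw [← cl_iff, h9_iff hs hn.1, and_assoc]
    refine and_congr_right fun hc => and_congr_right fun hH => ?_
    have hA := (adm_iff hs hn.1).2 ⟨hsq, hc⟩
    have h9 := (h9_iff hs hn.1).2 hH
    rw [hQ _ hA h9, crit_iff hB hB9 hA h9, habs]
  · congr 1
    ext n
    simp only [Finset.mem_filter, Finset.mem_Icc]
    refine and_congr_right fun hn => and_congr_right fun hsq => ?_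
    rw [← cl_iff, h9_iff hs hn.1]

end Pool.Agent.V11291.JH
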